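import Pool.Agent.helper12.TY.Spec
import Pool.Agent.helper63.TZ.IJN

/-! Row ty:YJ1 (MP_baa4d7_al): the number of the pairs which generate a cyclic subgroup. -/

set_option autoImplicit false

namespace Pool.Agent.TY

open Pool.Agent.helper58.DC Pool.Agent.DI Pool.Agent.GR Pool.Agent.OB Pool.Agent.TZ

theorem YJ1_pow {l k : ℕ} (hl : l.Prime) (hk : 0 < k) : J2 (l ^ k) = l ^ (2 * (k - 1)) * (l ^ 2 - 1) := by
  unfold J2
  rw [Nat.primeFactors_prime_pow hk.ne' hl, Finset.prod_singleton, Nat.Prime.factorization_pow hl,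
    Finsupp.single_eq_same]

theorem YJ1_mul {a b : ℕ} (h : Nat.Coprime a b) : J2 (a * b) = J2 a * J2 b := by
  unfold J2
  rw [h.primeFactors_mul, Finset.prod_union h.disjoint_primeFactors]
  refine congrArg₂ (· * ·) ?_ ?_
  · refine Finset.prod_congr rfl fun l hl => ?_
    rw [Nat.factorization_eq_of_coprime_left h (List.mem_toFinset.1 hl)]
  · refine Finset.prod_congr rfl fun l hl => ?_
    rw [Nat.factorization_eq_of_coprime_right h (List.mem_toFinset.1 hl)]

theorem YJ1_eq (n : ℕ) (hn : n ≠ 0) : IJN_P n = J2 n := by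
  induction n using Nat.recOnPosPrimePosCoprime with
  | prime_pow l k hl hk => rw [IJN_pow hl hk, YJ1_pow hl hk]
  | zero => exact absurd rfl hn
  | one =>
    rw [IJN_one]
    unfold J2
    rw [Nat.primeFactors_one, Finset.prod_empty]
  | coprime a b ha hb hab iha ihb =>
    rw [IJN_mul hab, YJ1_mul hab, iha (by omega), ihb (by omega)]

theorem YJ1 : YJ1_stmt := by
  intro A _ _ U hU
  have h1 := IJN_card U hU
  rw [YJ1_eq _ Nat.card_pos.ne'] at h1
  rw [← h1]
  refine (Nat.card_congr ?_).symm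
  refine Equiv.ofBijective (fun z : {x : U × U // Subgroup.closure {x.1, x.2} = (⊤ : Subgroup U)} =>
    (⟨((z.1.1 : A), (z.1.2 : A)), ?_⟩ : {x : A × A // Subgroup.closure {x.1, x.2} = U})) ⟨?_, ?_⟩
  · have h2 := z.2
    have h3 : Subgroup.map U.subtype (Subgroup.closure {z.1.1, z.1.2}) = U := by
      rw [h2, ← MonoidHom.range_eq_map, Subgroup.range_subtype]
    rw [MonoidHom.map_closure, Set.image_pair] at h3
    exact h3
  · rintro ⟨⟨x, y⟩, hz⟩ ⟨⟨x', y'⟩, hz'⟩ h
    have h4 := congrArg (fun w : {x : A × A // Subgroup.closure {x.1, x.2} = U} => w.1) h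
    simp only [Prod.mk.injEq, SetLike.coe_eq_coe] at h4
    exact Subtype.ext (Prod.ext h4.1 h4.2)
  · rintro ⟨⟨x, y⟩, hz⟩
    change Subgroup.closure {x, y} = U at hz
    have hx : x ∈ U := by
      rw [← hz]
      exact Subgroup.subset_closure (Set.mem_insert _ _)
    have hy : y ∈ U := by
      rw [← hz]
      exact Subgroup.subset_closure (Set.mem_insert_of_mem _ rfl)
    refine ⟨⟨(⟨x, hx⟩, ⟨y, hy⟩), ?_⟩, rfl⟩
    have h3 : Subgroup.map U.subtype (Subgroup.closure {(⟨x, hx⟩ : U), ⟨y, hy⟩}) = Subgroup.map U.subtype ⊤ := by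
      rw [MonoidHom.map_closure, Set.image_pair, ← MonoidHom.range_eq_map, Subgroup.range_subtype]
      exact hz
    exact Subgroup.map_injective U.subtype_injective h3

end Pool.Agent.TY
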